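import Pool.Agent.H68.TG.Targets

/-!
# De Mol's tag system: row SHW
-/

set_option autoImplicit false

open List Pool.Agent.H68.TG

namespace Pool.Agent.H37.TG

theorem dd_zero : dd 0 = [] := rfl

theorem pf_SHW : T_SHW := by
  intro w hw
  match w, hw with
  | [], _ =>
    refine ⟨0, ⟨0, 0, Or.inl ?_⟩, ?_⟩
    · simp [dd_zero]
    · simp
  | [c], _ =>
    fin_cases c
    · refine ⟨0, ⟨1, 0, Or.inl ?_⟩, ?_⟩
      · simp [dd_zero]
      · simp
    · have h1 : step [(1 : Fin 3)] = [0] := by simp [step, prd]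
      refine ⟨1, ⟨1, 0, Or.inl ?_⟩, ?_⟩
      · show step [(1 : Fin 3)] = _
        rw [h1]
        simp [dd_zero]
      · show ((step [(1 : Fin 3)]).length : ℝ) ≤ 1
        rw [h1]
        simp
    · refine ⟨0, ⟨0, 0, Or.inr ?_⟩, ?_⟩
      · simp [dd_zero]
      · simp
  | c :: d :: w, h => simp at h

end Pool.Agent.H37.TG
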